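import Pool.Agent.Helper94.KC.Final

/-!
For every choice of optimal machines the plain complexity of `C(x)` given `x` and `K(x)` takes
arbitrarily large values, each for infinitely many strings `x`.
-/

set_option autoImplicit false

namespace Pool.Agent.Results.MP_7c40ec_lc.AllOptimalMachines

/-- an optimal plain machine -/
def OptimalPlain (W : List Bool →. List Bool) : Prop :=
  Partrec W ∧ ∀ M : List Bool →. List Bool, Partrec M →
    ∃ c : ℕ, ∀ p z : List Bool, z ∈ M p → ∃ q : List Bool, q.length ≤ p.length + c ∧ z ∈ W q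

/-- no program on which the machine halts is a proper beginning of another one -/
def PrefixFree (M : List Bool →. List Bool) : Prop :=
  ∀ p q : List Bool, (M p).Dom → (M q).Dom → p <+: q → p = q

/-- an optimal prefix-free machine -/
def OptimalPrefixFree (V : List Bool →. List Bool) : Prop :=
  Partrec V ∧ PrefixFree V ∧ ∀ M : List Bool →. List Bool, Partrec M → PrefixFree M →
    ∃ c : ℕ, ∀ p z : List Bool, z ∈ M p → ∃ q : List Bool, q.length ≤ p.length + c ∧ z ∈ V q

/-- an optimal plain machine for numbers, with a string and a number as conditions -/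
def OptimalConditional (U : List Bool → List Bool × ℕ →. ℕ) : Prop :=
  Partrec₂ U ∧ ∀ M : List Bool → List Bool × ℕ →. ℕ, Partrec₂ M →
    ∃ c : ℕ, ∀ (p : List Bool) (y : List Bool × ℕ) (z : ℕ), z ∈ M p y →
      ∃ q : List Bool, q.length ≤ p.length + c ∧ z ∈ U q y

/-- the complexity of `x` for the machine `W` -/
noncomputable def complexity (W : List Bool →. List Bool) (x : List Bool) : ℕ :=
  sInf {m : ℕ | ∃ q : List Bool, q.length = m ∧ x ∈ W q}

/-- the complexity of the number `z` with the condition `y` for the machine `U` -/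
noncomputable def condComplexity (U : List Bool → List Bool × ℕ →. ℕ) (z : ℕ)
    (y : List Bool × ℕ) : ℕ :=
  sInf {m : ℕ | ∃ q : List Bool, q.length = m ∧ z ∈ U q y}

theorem result :
    (∃ W V U, OptimalPlain W ∧ OptimalPrefixFree V ∧ OptimalConditional U) ∧
    ∀ W V U, OptimalPlain W → OptimalPrefixFree V → OptimalConditional U → ∀ c : ℕ,
      {x : List Bool | c < condComplexity U (complexity W x) (x, complexity V x)}.Infinite := by
  refine ⟨⟨Helper94.KC.Wu, Helper94.KC.Vu, Helper94.KC.Uu,
    ⟨Helper94.KC.partrec_Wu, Helper94.KC.Wu_optimal⟩,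
    ⟨Helper94.KC.partrec_Vu, Helper94.KC.Vu_prefixFree, Helper94.KC.Vu_optimal⟩,
    ⟨Helper94.KC.partrec_Uu, Helper94.KC.Uu_optimal⟩⟩, ?_⟩
  rintro W V U ⟨hW, hWo⟩ ⟨hV, hVp, hVo⟩ ⟨hU, hUo⟩ c hfin
  obtain ⟨b, hb⟩ := (hfin.image fun x =>
    condComplexity U (complexity W x) (x, complexity V x)).bddAbove
  obtain ⟨x, hx⟩ := Helper94.KC.unbounded W V U hW hWo hV hVp hVo hU hUo (max b c)
  have hx' : max b c < condComplexity U (complexity W x) (x, complexity V x) := hx
  have h1 : condComplexity U (complexity W x) (x, complexity V x) ≤ b :=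
    hb ⟨x, (le_max_right b c).trans_lt hx', rfl⟩
  exact absurd h1 (not_le.mpr ((le_max_left b c).trans_lt hx'))

end Pool.Agent.Results.MP_7c40ec_lc.AllOptimalMachines
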